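import Pool.Agent.H58.FL.TargetsD
import Pool.Agent.H49.FL.SYM
import Pool.Agent.H49.FL.INT

/-! MP_6a7a6f_gt, row MN4: the monopole number of four pairwise close points. -/

set_option autoImplicit false

open Pool.Agent.H58.FL Pool.Agent.H59 Pool.Agent.H48.FR

namespace Pool.Agent.H59.FLD.MN4

theorem k2_pos : 0 < k2 := by
  have h1 : Real.sqrt 5 < 3 := by
    rw [Real.sqrt_lt' (by norm_num)]
    norm_num
  unfold k2
  linarith

section
variable {E : Type} [NormedAddCommGroup E] [InnerProductSpace ℂ E]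

theorem inner_ne (a b : E) (h : Ad a b) : (inner ℂ a b : ℂ) ≠ 0 := by
  intro h0
  unfold Ad at h
  rw [h0, norm_zero] at h
  have := k2_pos
  norm_num at h
  linarith

theorem one (hTR2 : T_TR2) (p : Fin 3 → E) (hp : Cl p) :
    ar (p 1) (p 0) (p 2) = -ar (p 0) (p 1) (p 2) ∧
    ar (p 0) (p 2) (p 1) = -ar (p 0) (p 1) (p 2) ∧ ar (p 1) (p 2) (p 0) = ar (p 0) (p 1) (p 2) ∧
    ar (p 2) (p 0) (p 1) = ar (p 0) (p 1) (p 2) ∧ ar (p 2) (p 1) (p 0) = -ar (p 0) (p 1) (p 2) ∧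
    |ar (p 0) (p 1) (p 2)| < 7 * Real.pi / 10 := by
  obtain ⟨h1, h2⟩ := hp
  have hb := (hTR2 E (p 0) (p 1) (p 2) (h1 0) (h1 1) (h1 2)).2 (h2 0 1) (h2 1 2) (h2 2 0)
  have hlt : |ar (p 0) (p 1) (p 2)| < Real.pi := by
    have := Real.pi_pos
    linarith
  obtain ⟨s1, s2, _⟩ := Pool.Agent.H49.FL.pf_SYM E (p 0) (p 1) (p 2)
  obtain ⟨e1, e2, e3⟩ := s2 hlt
  obtain ⟨s3, _, _⟩ := Pool.Agent.H49.FL.pf_SYM E (p 1) (p 2) (p 0)
  exact ⟨e1, e2, s1, s3.trans s1, e3, hb⟩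

/-- three of the points -/
theorem tri (hTR2 : T_TR2) {n : ℕ} (p : Fin n → E) (hp : Cl p) (i j k : Fin n) :
    ar (p j) (p i) (p k) = -ar (p i) (p j) (p k) ∧
    ar (p i) (p k) (p j) = -ar (p i) (p j) (p k) ∧ ar (p j) (p k) (p i) = ar (p i) (p j) (p k) ∧
    ar (p k) (p i) (p j) = ar (p i) (p j) (p k) ∧ ar (p k) (p j) (p i) = -ar (p i) (p j) (p k) ∧
    |ar (p i) (p j) (p k)| < 7 * Real.pi / 10 :=
  one hTR2 (fun x : Fin 3 => p (![i, j, k] x)) ⟨fun x => hp.1 _, fun x y => hp.2 _ _⟩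

end

theorem pf_MN4 (hTR2 : T_TR2) : T_MN4 := by
  intro E _ _
  refine ⟨fun p hp => one hTR2 p hp, fun p hp => ?_, fun a b c d e => ?_⟩
  · have hpi := Real.pi_pos
    have h01 := tri hTR2 p hp 0 1 2
    have h02 := tri hTR2 p hp 0 1 3
    have h03 := tri hTR2 p hp 0 2 3
    have h04 := tri hTR2 p hp 1 2 3
    have hne : ∀ i j, (inner ℂ (p i) (p j) : ℂ) ≠ 0 := fun i j => inner_ne _ _ (hp.2 i j)
    obtain ⟨k, hk⟩ := (Pool.Agent.H49.FL.pf_INT E).1 (p 0) (p 1) (p 2) (p 3) (hne _ _) (hne _ _)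
      (hne _ _) (hne _ _) (hne _ _) (hne _ _)
    refine ⟨?_, ?_, ?_, ?_⟩
    · have b1 := abs_lt.mp h01.2.2.2.2.2
      have b2 := abs_lt.mp h02.2.2.2.2.2
      have b3 := abs_lt.mp h03.2.2.2.2.2
      have b4 := abs_lt.mp h04.2.2.2.2.2
      have hm : mn (p 0) (p 1) (p 2) (p 3) < 2 ∧ -2 < mn (p 0) (p 1) (p 2) (p 3) := by
        unfold mn
        constructor
        · rw [div_lt_iff₀ (by positivity)]
          linarith
        · rw [lt_div_iff₀ (by positivity)]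
          linarith
      rw [hk] at hm ⊢
      have k1 : k < 2 := by exact_mod_cast hm.1
      have k2' : -2 < k := by exact_mod_cast hm.2
      have : k = 0 ∨ k = 1 ∨ k = -1 := by omega
      rcases this with h | h | h
      · left; rw [h]; norm_num
      · right; left; rw [h]; norm_num
      · right; right; rw [h]; norm_num
    · unfold mn
      rw [h02.1, h01.1]
      ring
    · unfold mn
      rw [h04.1, h01.2.1]
      ring
    · unfold mn
      rw [h04.2.1, h03.2.1]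
      ring
  · unfold mn
    ring

end Pool.Agent.H59.FLD.MN4
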