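import Pool.Agent.H58.FL.TargetsD

/-! MP_6a7a6f_gt, row TTT: no two triangles. -/

set_option autoImplicit false

open Pool.Agent.H58.FL Pool.Agent.H59 Pool.Agent.H48.FR

namespace Pool.Agent.H59.FLD.TTT

section
variable {E : Type} [NormedAddCommGroup E] [InnerProductSpace ℂ E]

theorem tri (hMN4 : T_MN4) (p : Fin 6 → E) (hc : Cl p) (i j k : Fin 6) :
    ar (p j) (p i) (p k) = -ar (p i) (p j) (p k) ∧
      ar (p i) (p k) (p j) = -ar (p i) (p j) (p k) ∧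
      ar (p j) (p k) (p i) = ar (p i) (p j) (p k) ∧
      ar (p k) (p i) (p j) = ar (p i) (p j) (p k) ∧
      ar (p k) (p j) (p i) = -ar (p i) (p j) (p k) := by
  obtain ⟨a1, a2, a3, a4, a5, _⟩ := (hMN4 E).1 (fun x : Fin 3 => p (![i, j, k] x))
    ⟨fun _ => hc.1 _, fun _ _ => hc.2 _ _⟩
  exact ⟨a1, a2, a3, a4, a5⟩

theorem wheel (hW4 : T_W4) (hMN4 : T_MN4) (p : Fin 6 → E) (hc : Cl p)
    (hf : ∀ i j, i ≠ j → Fr (p i) (p j)) (h a b c d : Fin 6) (ha : h ≠ a) (hb : h ≠ b)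
    (hcc : h ≠ c) (hd : h ≠ d) :
    ar (p h) (p a) (p b) + ar (p h) (p b) (p c) + ar (p h) (p c) (p d) +
        ar (p h) (p d) (p a) < 2 * Real.pi ∧
    -(2 * Real.pi) < ar (p h) (p a) (p b) + ar (p h) (p b) (p c) + ar (p h) (p c) (p d) +
        ar (p h) (p d) (p a) := by
  have w1 := hW4 E (p h) (p a) (p b) (p c) (p d) (hc.1 h) ⟨hc.1 a, hc.2 h a, hf h a ha⟩
      ⟨hc.1 b, hc.2 h b, hf h b hb⟩ ⟨hc.1 c, hc.2 h c, hf h c hcc⟩
      ⟨hc.1 d, hc.2 h d, hf h d hd⟩ (hc.2 a b) (hc.2 b c) (hc.2 c d) (hc.2 d a)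
  have w2 := hW4 E (p h) (p a) (p d) (p c) (p b) (hc.1 h) ⟨hc.1 a, hc.2 h a, hf h a ha⟩
      ⟨hc.1 d, hc.2 h d, hf h d hd⟩ ⟨hc.1 c, hc.2 h c, hf h c hcc⟩
      ⟨hc.1 b, hc.2 h b, hf h b hb⟩ (hc.2 a d) (hc.2 d c) (hc.2 c b) (hc.2 b a)
  rw [(tri hMN4 p hc h d a).2.1, (tri hMN4 p hc h c d).2.1, (tri hMN4 p hc h b c).2.1,
    (tri hMN4 p hc h a b).2.1] at w2
  exact ⟨w1, by linarith⟩

theorem core (hW4 : T_W4) (hMN4 : T_MN4) (p : Fin 6 → E) (hc : Cl p)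
    (hf : ∀ i j, i ≠ j → Fr (p i) (p j)) (s : ℝ) (hs : s = 1 ∨ s = -1)
    (m1 : mn (p 0) (p 1) (p 2) (p 3) = s) (m2 : mn (p 0) (p 1) (p 2) (p 5) = s)
    (m3 : mn (p 0) (p 3) (p 4) (p 5) = s) (z1 : mn (p 0) (p 1) (p 3) (p 5) = 0)
    (z2 : mn (p 0) (p 1) (p 4) (p 5) = 0) (z3 : mn (p 0) (p 2) (p 3) (p 4) = 0)
    (z4 : mn (p 0) (p 2) (p 4) (p 5) = 0) : False := by
  have hpi := Real.pi_pos
  have hM : ∀ (i j k l : Fin 6) (c : ℝ), mn (p i) (p j) (p k) (p l) = c →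
      ar (p j) (p k) (p l) - ar (p i) (p k) (p l) + ar (p i) (p j) (p l) -
        ar (p i) (p j) (p k) = c * (2 * Real.pi) := by
    intro i j k l c h
    unfold mn at h
    rw [div_eq_iff (by positivity)] at h
    exact h
  have e1 := hM _ _ _ _ _ m1
  have e2 := hM _ _ _ _ _ m2
  have e3 := hM _ _ _ _ _ m3
  have e4 := hM _ _ _ _ _ z1
  have e5 := hM _ _ _ _ _ z2
  have e6 := hM _ _ _ _ _ z3
  have e7 := hM _ _ _ _ _ z4
  have tr := tri hMN4 p hc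
  have wh := wheel hW4 hMN4 p hc hf
  have w1 := wh 1 0 2 5 4 (by decide) (by decide) (by decide) (by decide)
  have w2 := wh 0 1 3 5 2 (by decide) (by decide) (by decide) (by decide)
  have w3 := wh 4 0 1 5 3 (by decide) (by decide) (by decide) (by decide)
  have w4 := wh 5 0 3 4 2 (by decide) (by decide) (by decide) (by decide)
  have w5 := wh 3 1 2 4 5 (by decide) (by decide) (by decide) (by decide)
  have w6 := wh 2 0 4 3 1 (by decide) (by decide) (by decide) (by decide)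
  rw [(tr 0 1 2).1, (tr 1 4 5).2.1, (tr 0 1 4).2.2.1] at w1
  rw [(tr 0 2 5).2.1, (tr 0 1 2).2.1] at w2
  rw [(tr 0 1 4).2.2.2.1, (tr 1 4 5).1, (tr 3 4 5).2.2.1, (tr 0 3 4).2.2.2.2] at w3
  rw [(tr 0 3 5).2.2.2.1, (tr 3 4 5).2.2.2.1, (tr 2 4 5).2.2.2.2, (tr 0 2 5).2.2.2.2] at w4
  rw [(tr 1 2 3).2.2.2.1, (tr 2 3 4).1, (tr 1 3 5).2.2.1] at w5
  rw [(tr 0 2 4).1, (tr 2 3 4).2.1, (tr 1 2 3).2.2.1, (tr 0 1 2).2.2.2.2] at w6
  rcases hs with hs | hs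
  · subst hs
    linarith [w1.1, w2.1, w3.1, w4.1, w5.1, w6.1]
  · subst hs
    linarith [w1.2, w2.2, w3.2, w4.2, w5.2, w6.2]

/-- the symmetries of the monopole number -/
theorem sy (hMN4 : T_MN4) (p : Fin 6 → E) (hc : Cl p) (i j k l : Fin 6) :
    (mn (p i) (p j) (p k) (p l) = 0 ∨ mn (p i) (p j) (p k) (p l) = 1 ∨
      mn (p i) (p j) (p k) (p l) = -1) ∧
    mn (p j) (p i) (p k) (p l) = -mn (p i) (p j) (p k) (p l) ∧
    mn (p i) (p k) (p j) (p l) = -mn (p i) (p j) (p k) (p l) ∧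
    mn (p i) (p j) (p l) (p k) = -mn (p i) (p j) (p k) (p l) :=
  (hMN4 E).2.1 (fun x : Fin 4 => p (![i, j, k, l] x)) ⟨fun _ => hc.1 _, fun _ _ => hc.2 _ _⟩

/-- two monopoles in five points -/
theorem five (hMN4 : T_MN4) (hR5 : T_R5) (p : Fin 6 → E) (hc : Cl p) (i j k l n : Fin 6)
    (h1 : mn (p i) (p j) (p k) (p l) ≠ 0) (h2 : mn (p i) (p j) (p k) (p n) ≠ 0) :
    mn (p j) (p k) (p l) (p n) = 0 ∧ mn (p i) (p k) (p l) (p n) = 0 ∧
      mn (p i) (p j) (p l) (p n) = 0 := by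
  have h := hR5 E (fun x : Fin 5 => p (![i, j, k, l, n] x)) ⟨fun _ => hc.1 _, fun _ _ => hc.2 _ _⟩
    h1
  have h' : (mn (p n) (p j) (p k) (p l) ≠ 0 ∧ mn (p i) (p n) (p k) (p l) = 0 ∧
    mn (p i) (p j) (p n) (p l) = 0 ∧ mn (p i) (p j) (p k) (p n) = 0) ∨
  (mn (p n) (p j) (p k) (p l) = 0 ∧ mn (p i) (p n) (p k) (p l) ≠ 0 ∧
    mn (p i) (p j) (p n) (p l) = 0 ∧ mn (p i) (p j) (p k) (p n) = 0) ∨
  (mn (p n) (p j) (p k) (p l) = 0 ∧ mn (p i) (p n) (p k) (p l) = 0 ∧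
    mn (p i) (p j) (p n) (p l) ≠ 0 ∧ mn (p i) (p j) (p k) (p n) = 0) ∨
  (mn (p n) (p j) (p k) (p l) = 0 ∧ mn (p i) (p n) (p k) (p l) = 0 ∧
    mn (p i) (p j) (p n) (p l) = 0 ∧ mn (p i) (p j) (p k) (p n) ≠ 0) := h
  have q : mn (p n) (p j) (p k) (p l) = 0 ∧ mn (p i) (p n) (p k) (p l) = 0 ∧
      mn (p i) (p j) (p n) (p l) = 0 := by tauto
  obtain ⟨q1, q2, q3⟩ := q
  have s := sy hMN4 p hc
  refine ⟨?_, ?_, ?_⟩
  · -- n j k l -> j n k l -> j k n l -> j k l n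
    have a1 := (s n j k l).2.1
    have a2 := (s j n k l).2.2.1
    have a3 := (s j k n l).2.2.2
    linarith
  · have a2 := (s i n k l).2.2.1
    have a3 := (s i k n l).2.2.2
    linarith
  · have a3 := (s i j n l).2.2.2
    linarith

end

theorem pf_TTT (hW4 : T_W4) (hMN4 : T_MN4) (hOP2 : T_OP2) (hR5 : T_R5) : T_TTT := by
  intro E _ _ p hc n0123 n0124 n0125 n0345 n1345 n2345
  have s := sy hMN4 p hc
  have coc := (hMN4 E).2.2
  have fiv := five hMN4 hR5 p hc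
  have f1 := fiv 0 1 2 3 4 n0123 n0124
  have f2 := fiv 0 1 2 3 5 n0123 n0125
  have f3 := fiv 0 1 2 4 5 n0124 n0125
  -- far pairs
  have op : ∀ i j k l : Fin 6, mn (p i) (p j) (p k) (p l) ≠ 0 → ∀ x y : Fin 4, x ≠ y →
      Fr (p (![i, j, k, l] x)) (p (![i, j, k, l] y)) := fun i j k l h =>
    hOP2 E (fun x : Fin 4 => p (![i, j, k, l] x)) ⟨fun _ => hc.1 _, fun _ _ => hc.2 _ _⟩ h
  have o1 := op 0 1 2 3 n0123
  have o2 := op 0 1 2 4 n0124
  have o3 := op 0 1 2 5 n0125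
  have o4 := op 0 3 4 5 n0345
  have hf : ∀ i j : Fin 6, i ≠ j → Fr (p i) (p j) := by
    have d01 := o1 0 1 (by decide)
    have d02 := o1 0 2 (by decide)
    have d03 := o1 0 3 (by decide)
    have d12 := o1 1 2 (by decide)
    have d13 := o1 1 3 (by decide)
    have d23 := o1 2 3 (by decide)
    have d10 := o1 1 0 (by decide)
    have d20 := o1 2 0 (by decide)
    have d30 := o1 3 0 (by decide)
    have d21 := o1 2 1 (by decide)
    have d31 := o1 3 1 (by decide)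
    have d32 := o1 3 2 (by decide)
    have d04 := o2 0 3 (by decide)
    have d14 := o2 1 3 (by decide)
    have d24 := o2 2 3 (by decide)
    have d40 := o2 3 0 (by decide)
    have d41 := o2 3 1 (by decide)
    have d42 := o2 3 2 (by decide)
    have d05 := o3 0 3 (by decide)
    have d15 := o3 1 3 (by decide)
    have d25 := o3 2 3 (by decide)
    have d50 := o3 3 0 (by decide)
    have d51 := o3 3 1 (by decide)
    have d52 := o3 3 2 (by decide)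
    have d34 := o4 1 2 (by decide)
    have d35 := o4 1 3 (by decide)
    have d45 := o4 2 3 (by decide)
    have d43 := o4 2 1 (by decide)
    have d53 := o4 3 1 (by decide)
    have d54 := o4 3 2 (by decide)
    intro i j hij
    fin_cases i <;> fin_cases j <;> first | exact absurd rfl hij | assumption
  -- the values
  have c1 := coc (p 0) (p 1) (p 2) (p 3) (p 4)
  have c2 := coc (p 0) (p 1) (p 2) (p 3) (p 5)
  have v1 : mn (p 0) (p 1) (p 2) (p 4) = mn (p 0) (p 1) (p 2) (p 3) := by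
    linarith [f1.1, f1.2.1, f1.2.2]
  have v2 : mn (p 0) (p 1) (p 2) (p 5) = mn (p 0) (p 1) (p 2) (p 3) := by
    linarith [f2.1, f2.2.1, f2.2.2]
  have t1 : mn (p 0) (p 1) (p 2) (p 3) = 1 ∨ mn (p 0) (p 1) (p 2) (p 3) = -1 :=
    (s 0 1 2 3).1.resolve_left n0123
  have t2 : mn (p 0) (p 3) (p 4) (p 5) = 1 ∨ mn (p 0) (p 3) (p 4) (p 5) = -1 :=
    (s 0 3 4 5).1.resolve_left n0345
  by_cases hsr : mn (p 0) (p 3) (p 4) (p 5) = mn (p 0) (p 1) (p 2) (p 3)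
  · exact core hW4 hMN4 p hc hf _ t1 rfl v2 hsr f2.2.2 f3.2.2 f1.2.1 f3.2.1
  · have hr : mn (p 0) (p 3) (p 5) (p 4) = mn (p 0) (p 1) (p 2) (p 3) := by
      have := (s 0 3 4 5).2.2.2
      rcases t1 with h1 | h1 <;> rcases t2 with h2 | h2
      · exact absurd (h2.trans h1.symm) hsr
      · rw [this, h2, h1]; norm_num
      · rw [this, h2, h1]
      · exact absurd (h2.trans h1.symm) hsr
    refine core hW4 hMN4 (fun x => p (![0, 1, 2, 3, 5, 4] x)) ⟨fun _ => hc.1 _, fun _ _ => hc.2 _ _⟩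
      (fun i j hij => hf _ _ ?_) (mn (p 0) (p 1) (p 2) (p 3)) t1 rfl v1 hr f1.2.2 ?_ f2.2.1 ?_
    · revert i j
      decide
    · have := (s 0 1 4 5).2.2.2
      have h3 := f3.2.2
      change mn (p 0) (p 1) (p 5) (p 4) = 0
      linarith
    · have := (s 0 2 4 5).2.2.2
      have h3 := f3.2.1
      change mn (p 0) (p 2) (p 5) (p 4) = 0
      linarith

end Pool.Agent.H59.FLD.TTT
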